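import Pool.Agent.helper90.FN.Spec
import Pool.Agent.helper97.HP.B6

/-!
Module fn:CB of the functional form of MP_5ae64c_pr.
-/

set_option autoImplicit false

open scoped BigOperators Topology
open Filter MeasureTheory

namespace Pool.Agent.helper90.FN

open Finset
open Pool.Agent.helper72.UT (IsFor dep pth rt fors Reg lz)
open Pool.Agent.helper20.HP (ind HW W Par cc run lel lst lazyP tmix ustE height vol Setup CZ CP IsKer)
open Pool.Agent.helper20.HP (W_mono W_nonneg W_split W_mul_right W_const ind_nonneg ind_le_one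
  ind_mono ind_true ind_false lev Zq Zq_le B6_point B6_CZ_pos W_mul_left W_sum W_congr)

variable {V : Type} [Fintype V] [DecidableEq V]

/-- survival for `j` blocks -/
theorem CB_surv (K : HW V) (D : Finset V) (h : ℕ) (hH : Hit K D h) :
    ∀ (j : ℕ) (x : V), W K (j * h) x (fun l => ind (∀ z ∈ l, z ∉ D)) ≤ (1 / 2) ^ j := by
  intro j
  induction j with
  | zero =>
    intro x
    rw [Nat.zero_mul, pow_zero]
    exact ind_le_one _
  | succ j ih =>
    intro x
    have e : (j + 1) * h = h + j * h := by ring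
    rw [e, W_split]
    calc W K h x (fun l => W K (j * h) (lst x l) (fun l' => ind (∀ z ∈ l ++ l', z ∉ D)))
        ≤ W K h x (fun l => ind (∀ z ∈ l, z ∉ D) * (1 / 2) ^ j) := by
          refine W_mono K h x fun l _ => ?_
          have h1 : W K (j * h) (lst x l) (fun l' => ind (∀ z ∈ l ++ l', z ∉ D)) ≤
              W K (j * h) (lst x l) (fun l' => ind (∀ z ∈ l, z ∉ D) * ind (∀ z ∈ l', z ∉ D)) := by
            refine W_mono K _ _ fun l' _ => ?_
            rw [← Pool.Agent.helper20.HP.ind_and]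
            refine ind_mono fun h2 => ⟨fun z hz => h2 z (List.mem_append_left _ hz),
              fun z hz => h2 z (List.mem_append_right _ hz)⟩
          rw [W_mul_left] at h1
          exact h1.trans (mul_le_mul_of_nonneg_left (ih _) (ind_nonneg _))
      _ = W K h x (fun l => ind (∀ z ∈ l, z ∉ D)) * (1 / 2) ^ j := W_mul_right K h x _ _
      _ ≤ (1 / 2) * (1 / 2) ^ j := mul_le_mul_of_nonneg_right (hH x) (by positivity)
      _ = (1 / 2) ^ (j + 1) := by rw [pow_succ]; ring

theorem CB_cnt_nonneg (K : HW V) (D : Finset V) (y : V) (q t : ℕ) : 0 ≤ cnt K D y q t :=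
  W_nonneg K t y fun _ _ => mul_nonneg (ind_nonneg _) (ind_nonneg _)

theorem CB_surv' (K : HW V) (D : Finset V) (h : ℕ) (hH : Hit K D h) (j m : ℕ) (x : V) :
    W K (j * h + m) x (fun l => ind (∀ z ∈ l, z ∉ D)) ≤ (1 / 2) ^ j := by
  rw [W_split]
  refine le_trans ?_ (CB_surv K D h hH j x)
  refine W_mono K _ _ fun l _ => ?_
  refine le_trans (W_mono K m (lst x l) (g := fun _ => ind (∀ z ∈ l, z ∉ D)) fun l' _ => ?_) ?_
  · exact ind_mono fun h2 z hz => h2 z (List.mem_append_left _ hz)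
  · rw [W_const]

theorem CB_cnt_zero (K : HW V) (D : Finset V) (y : V) (q t : ℕ) (h : t < q) :
    cnt K D y q t = 0 := by
  unfold cnt
  rw [W_congr K t y (g := fun _ => 0) fun l hl => ?_, W_const]
  have h1 := Pool.Agent.helper20.HP.lel_le y l
  rw [ind_false (by omega : ¬ lel y l = q), mul_zero]

/-- one block -/
theorem CB_block (K : HW V) (θ : ℝ) (h₀ h : ℕ) (hP : Par K θ h₀) (h1 : 2 * h₀ ≤ h)
    (h4 : 4 * h ≤ Nat.sqrt (Fintype.card V)) (D : Finset V) (hH : Hit K D h) (y : V) (q j : ℕ) :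
    ∑ v ∈ range h, cnt K D y q (h + j * h + v) ≤
      (1 / 2) ^ j * (CZ θ * θ * (1 + 3 * ((j : ℝ) + 2) / 32)) := by
  have hCZ := B6_CZ_pos hP
  have hθ := hP.one_le
  have hh0 := hP.h_pos
  have hh : 1 ≤ h := by omega
  have hn : 0 < Fintype.card V := hP.card_pos
  have hnR : (0 : ℝ) < (Fintype.card V : ℝ) := by exact_mod_cast hn
  have hR : 0 ≤ (1 / 2 : ℝ) ^ j * (CZ θ * θ * (1 + 3 * ((j : ℝ) + 2) / 32)) := by positivity
  by_cases hq : (j + 2) * h ≤ q
  · refine le_trans (le_of_eq (Finset.sum_eq_zero fun v hv => ?_)) hR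
    rw [mem_range] at hv
    refine CB_cnt_zero K D y q _ (lt_of_lt_of_le ?_ hq)
    have : (j + 2) * h = h + j * h + h := by ring
    omega
  push Not at hq
  set a := j * h + (h - 2 * h₀) with ha
  have hstep : ∀ v ∈ range h, cnt K D y q (h + j * h + v) ≤
      W K a y (fun l0 => ind (∀ z ∈ l0, z ∉ D) * W K (2 * h₀ + v) (lst y l0)
        (fun l' => ind (∀ z ∈ l', z ∉ ([] : List V)) * lev q y [] (l0 ++ l'))) := by
    intro v hv
    have e : h + j * h + v = a + (2 * h₀ + v) := by omega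
    unfold cnt
    rw [e, W_split]
    refine W_mono K a y fun l0 _ => ?_
    rw [← W_mul_left]
    refine W_mono K _ _ fun l' _ => ?_
    have e1 : ind (∀ z ∈ l', z ∉ ([] : List V)) = 1 := ind_true (by simp)
    rw [e1, one_mul]
    have e2 : lev q y [] (l0 ++ l') = ind (lel y (l0 ++ l') = q) := by
      unfold lev
      rw [Pool.Agent.helper20.HP.run_single_length]
      exact Pool.Agent.helper20.HP.ind_congr (by omega)
    rw [e2]
    refine mul_le_mul_of_nonneg_right (ind_mono fun h2 z hz => ?_) (ind_nonneg _)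
    exact h2 z (List.mem_append_left _ hz)
  have hT : ((h - 1 : ℕ) : ℝ) + 1 = (h : ℝ) := by
    rw [Nat.cast_sub hh]; push_cast; ring
  have hB : CZ θ * (θ + (((h - 1 : ℕ) : ℝ) + 1) * (((q : ℝ) + 1) *
      (3 / (2 * (Fintype.card V : ℝ))))) ≤ CZ θ * θ * (1 + 3 * ((j : ℝ) + 2) / 32) := by
    rw [hT, mul_assoc]
    refine mul_le_mul_of_nonneg_left ?_ hCZ.le
    have hq' : (q : ℝ) + 1 ≤ ((j : ℝ) + 2) * h := by
      have : q + 1 ≤ (j + 2) * h := hq
      exact_mod_cast this
    have h16 : 16 * (h : ℝ) ^ 2 ≤ (Fintype.card V : ℝ) := by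
      have h5 : (4 * h) * (4 * h) ≤ Fintype.card V := Nat.le_sqrt.1 h4
      have h6 : ((4 * h) * (4 * h) : ℝ) ≤ (Fintype.card V : ℝ) := by exact_mod_cast h5
      nlinarith
    have h7 : (h : ℝ) * (((q : ℝ) + 1) * (3 / (2 * (Fintype.card V : ℝ)))) ≤
        3 * ((j : ℝ) + 2) / 32 := by
      have h8 : (h : ℝ) * (((q : ℝ) + 1) * (3 / (2 * (Fintype.card V : ℝ)))) ≤
          (h : ℝ) * ((((j : ℝ) + 2) * h) * (3 / (2 * (Fintype.card V : ℝ)))) := by
        gcongr
      refine h8.trans ?_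
      have e3 : (h : ℝ) * ((((j : ℝ) + 2) * h) * (3 / (2 * (Fintype.card V : ℝ)))) =
          (3 * ((j : ℝ) + 2) / 32) * (16 * (h : ℝ) ^ 2 / (Fintype.card V : ℝ)) := by
        field_simp
        ring
      rw [e3]
      have h9 : 16 * (h : ℝ) ^ 2 / (Fintype.card V : ℝ) ≤ 1 := by
        rw [div_le_one hnR]; exact h16
      calc (3 * ((j : ℝ) + 2) / 32) * (16 * (h : ℝ) ^ 2 / (Fintype.card V : ℝ))
          ≤ (3 * ((j : ℝ) + 2) / 32) * 1 := mul_le_mul_of_nonneg_left h9 (by positivity)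
        _ = _ := mul_one _
    have h10 : 3 * ((j : ℝ) + 2) / 32 ≤ θ * (3 * ((j : ℝ) + 2) / 32) := by
      have : 0 ≤ 3 * ((j : ℝ) + 2) / 32 := by positivity
      nlinarith
    linarith
  calc ∑ v ∈ range h, cnt K D y q (h + j * h + v)
      ≤ ∑ v ∈ range h, W K a y (fun l0 => ind (∀ z ∈ l0, z ∉ D) * W K (2 * h₀ + v) (lst y l0)
        (fun l' => ind (∀ z ∈ l', z ∉ ([] : List V)) * lev q y [] (l0 ++ l'))) :=
        Finset.sum_le_sum hstep
    _ = W K a y (fun l0 => ind (∀ z ∈ l0, z ∉ D) * ∑ v ∈ range h, W K (2 * h₀ + v) (lst y l0)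
        (fun l' => ind (∀ z ∈ l', z ∉ ([] : List V)) * lev q y [] (l0 ++ l'))) := by
        rw [← W_sum]
        refine W_congr K a y fun l0 _ => ?_
        rw [Finset.mul_sum]
    _ ≤ W K a y (fun l0 => ind (∀ z ∈ l0, z ∉ D) *
          (CZ θ * θ * (1 + 3 * ((j : ℝ) + 2) / 32))) := by
        refine W_mono K a y fun l0 _ => mul_le_mul_of_nonneg_left ?_ (ind_nonneg _)
        refine le_trans ?_ hB
        exact B6_point hP [] (h - 1) q (by omega) h (by omega) y [] l0 (by simp)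
    _ = W K a y (fun l0 => ind (∀ z ∈ l0, z ∉ D)) *
          (CZ θ * θ * (1 + 3 * ((j : ℝ) + 2) / 32)) := W_mul_right K a y _ _
    _ ≤ (1 / 2) ^ j * (CZ θ * θ * (1 + 3 * ((j : ℝ) + 2) / 32)) :=
        mul_le_mul_of_nonneg_right (CB_surv' K D h hH j _ y) (by positivity)

theorem CB_pow (j : ℕ) : Real.exp (Real.log 2 / 2 * ((j : ℝ) + 2)) * (1 / 2) ^ j ≤
    2 * (3 / 4) ^ j := by
  have e : Real.exp (Real.log 2 / 2 * ((j : ℝ) + 2)) = 2 * (Real.sqrt 2) ^ j := by
    have h1 : Real.log 2 / 2 * ((j : ℝ) + 2) = Real.log 2 + (j : ℝ) * (Real.log 2 / 2) := by ring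
    rw [h1, Real.exp_add, Real.exp_log (by norm_num), Real.exp_nat_mul]
    congr 2
    rw [Real.sqrt_eq_rpow, Real.rpow_def_of_pos (by norm_num)]
    congr 1
    ring
  rw [e, mul_assoc, ← mul_pow]
  have h2 : Real.sqrt 2 * (1 / 2) ≤ 3 / 4 := by
    have : Real.sqrt 2 ≤ 3 / 2 := by
      rw [Real.sqrt_le_left (by norm_num)]; norm_num
    linarith
  have h3 : 0 ≤ Real.sqrt 2 * (1 / 2) := by positivity
  have := pow_le_pow_left₀ h3 h2 j
  linarith

/-- partial sums of the geometric type series -/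
theorem CB_geom (J : ℕ) : ∑ j ∈ range J, (2 * (3 / 4 : ℝ) ^ j) * (1 + 3 * ((j : ℝ) + 2) / 32) ≤
    12 - (3 / 4) ^ J * (3 / 4 * J + 12) := by
  induction J with
  | zero => simp
  | succ J ih =>
    rw [Finset.sum_range_succ, pow_succ]
    push_cast
    have h0 : 0 ≤ (3 / 4 : ℝ) ^ J := by positivity
    nlinarith

theorem CB : CB_stmt := by
  intro V _ _ K θ h₀ h hP h1 h4 D hH y q N
  have hCZ := B6_CZ_pos hP
  have hθ := hP.one_le
  have hh0 := hP.h_pos
  have hh : 1 ≤ h := by omega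
  have hhR : (0 : ℝ) < h := by exact_mod_cast (by omega : 0 < h)
  have hl2 : 0 ≤ Real.log 2 := Real.log_nonneg (by norm_num)
  set c : ℝ := Real.log 2 / (2 * h) with hc
  have hc0 : 0 ≤ c := by positivity
  have hnn : ∀ t : ℕ, 0 ≤ Real.exp (c * t) * cnt K D y q t := fun t =>
    mul_nonneg (Real.exp_pos _).le (CB_cnt_nonneg K D y q t)
  -- first block
  have hfirst : ∑ t ∈ range h, Real.exp (c * t) * cnt K D y q t ≤ 2 * (CZ θ * θ) := by
    have e1 : ∀ t ∈ range h, Real.exp (c * t) * cnt K D y q t ≤ 2 * cnt K D y q t := by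
      intro t ht
      rw [mem_range] at ht
      refine mul_le_mul_of_nonneg_right ?_ (CB_cnt_nonneg K D y q t)
      have h2 : c * t ≤ Real.log 2 := by
        have h3 : (t : ℝ) ≤ 2 * h := by
          have : t ≤ 2 * h := by omega
          exact_mod_cast this
        rw [hc, div_mul_eq_mul_div, div_le_iff₀ (by positivity)]
        exact mul_le_mul_of_nonneg_left h3 hl2
      calc Real.exp (c * t) ≤ Real.exp (Real.log 2) := Real.exp_le_exp.2 h2
        _ = 2 := Real.exp_log (by norm_num)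
    refine (Finset.sum_le_sum e1).trans ?_
    rw [← Finset.mul_sum]
    refine mul_le_mul_of_nonneg_left ?_ (by norm_num)
    have h2 : ∑ t ∈ range h, cnt K D y q t ≤ Zq K (h - 1) q y := by
      unfold Zq
      rw [Nat.sub_add_cancel hh]
      refine Finset.sum_le_sum fun t _ => ?_
      unfold cnt
      refine W_mono K t y fun l _ => ?_
      have := ind_le_one (∀ z ∈ l, z ∉ D)
      have h3 := ind_nonneg (lel y l = q)
      nlinarith
    have h3 := Zq_le hP (h - 1) q y (by omega)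
    nlinarith
  -- the other blocks
  have hblock : ∀ j : ℕ, ∑ v ∈ range h, Real.exp (c * ((h + j * h + v : ℕ) : ℝ)) *
      cnt K D y q (h + j * h + v) ≤
        (2 * (3 / 4 : ℝ) ^ j) * (1 + 3 * ((j : ℝ) + 2) / 32) * (CZ θ * θ) := by
    intro j
    have e1 : ∀ v ∈ range h, Real.exp (c * ((h + j * h + v : ℕ) : ℝ)) *
        cnt K D y q (h + j * h + v) ≤
        Real.exp (Real.log 2 / 2 * ((j : ℝ) + 2)) * cnt K D y q (h + j * h + v) := by
      intro v hv
      rw [mem_range] at hv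
      refine mul_le_mul_of_nonneg_right (Real.exp_le_exp.2 ?_) (CB_cnt_nonneg K D y q _)
      have h3 : ((h + j * h + v : ℕ) : ℝ) ≤ ((j : ℝ) + 2) * h := by
        have : h + j * h + v ≤ (j + 2) * h := by
          have : (j + 2) * h = h + j * h + h := by ring
          omega
        exact_mod_cast this
      calc c * ((h + j * h + v : ℕ) : ℝ) ≤ c * (((j : ℝ) + 2) * h) :=
            mul_le_mul_of_nonneg_left h3 hc0
        _ = Real.log 2 / 2 * ((j : ℝ) + 2) := by
            rw [hc]; field_simp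
    refine (Finset.sum_le_sum e1).trans ?_
    rw [← Finset.mul_sum]
    have h5 := CB_block K θ h₀ h hP h1 h4 D hH y q j
    have h6 := CB_pow j
    have hX : 0 ≤ CZ θ * θ * (1 + 3 * ((j : ℝ) + 2) / 32) := by positivity
    calc Real.exp (Real.log 2 / 2 * ((j : ℝ) + 2)) *
          ∑ v ∈ range h, cnt K D y q (h + j * h + v)
        ≤ Real.exp (Real.log 2 / 2 * ((j : ℝ) + 2)) *
          ((1 / 2) ^ j * (CZ θ * θ * (1 + 3 * ((j : ℝ) + 2) / 32))) :=
          mul_le_mul_of_nonneg_left h5 (Real.exp_pos _).le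
      _ = (Real.exp (Real.log 2 / 2 * ((j : ℝ) + 2)) * (1 / 2) ^ j) *
          (CZ θ * θ * (1 + 3 * ((j : ℝ) + 2) / 32)) := by ring
      _ ≤ (2 * (3 / 4) ^ j) * (CZ θ * θ * (1 + 3 * ((j : ℝ) + 2) / 32)) :=
          mul_le_mul_of_nonneg_right h6 hX
      _ = _ := by ring
  have hall : ∀ J : ℕ, ∑ t ∈ range (h + J * h), Real.exp (c * t) * cnt K D y q t ≤
      2 * (CZ θ * θ) + ∑ j ∈ range J,
        (2 * (3 / 4 : ℝ) ^ j) * (1 + 3 * ((j : ℝ) + 2) / 32) * (CZ θ * θ) := by
    intro J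
    induction J with
    | zero => simpa using hfirst
    | succ J ih =>
      have e : h + (J + 1) * h = h + J * h + h := by ring
      rw [e, Finset.sum_range_add, Finset.sum_range_succ]
      have := hblock J
      linarith
  have hN : N ≤ h + N * h := by
    have : N * 1 ≤ N * h := Nat.mul_le_mul_left N hh
    omega
  calc ∑ t ∈ range N, Real.exp (c * t) * cnt K D y q t
      ≤ ∑ t ∈ range (h + N * h), Real.exp (c * t) * cnt K D y q t :=
        Finset.sum_le_sum_of_subset_of_nonneg (Finset.range_subset_range.2 hN)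
          fun t _ _ => hnn t
    _ ≤ 2 * (CZ θ * θ) + ∑ j ∈ range N,
        (2 * (3 / 4 : ℝ) ^ j) * (1 + 3 * ((j : ℝ) + 2) / 32) * (CZ θ * θ) := hall N
    _ ≤ 2 * (CZ θ * θ) + 12 * (CZ θ * θ) := by
        rw [← Finset.sum_mul]
        have h6 := CB_geom N
        have h7 : 0 ≤ (3 / 4 : ℝ) ^ N * (3 / 4 * N + 12) := by positivity
        have h8 : 0 ≤ CZ θ * θ := by positivity
        have := mul_le_mul_of_nonneg_right (h6.trans (by linarith :
          12 - (3 / 4 : ℝ) ^ N * (3 / 4 * N + 12) ≤ 12)) h8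
        linarith
    _ ≤ MC θ := by
        unfold MC
        have h8 : 0 ≤ CZ θ * θ := by positivity
        nlinarith

end Pool.Agent.helper90.FN
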