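import Pool.Agent.helper90.FN.Spec
import Pool.Agent.helper72.UT.Bridge
import Pool.Agent.helper20.HP.S0

/-!
Module fn:CT of the functional form of MP_5ae64c_pr.
-/

set_option autoImplicit false

open scoped BigOperators Topology
open Filter MeasureTheory

namespace Pool.Agent.helper90.FN

open Finset
open Pool.Agent.helper72.UT (IsFor dep pth rt fors Reg lz)
open Pool.Agent.helper20.HP (ind HW W Par cc run lel lst lazyP tmix ustE height vol Setup CZ CP IsKer)

theorem CT_cnt_eq {V : Type} [Fintype V] [DecidableEq V] (K : HW V) (D : Finset V) (y : V)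
    (q t : ℕ) :
    cnt K D y q t = (Pool.Agent.helper72.UT.ker K.p D)^[t]
      (fun l => if l.length - 1 = q then (1 : ℝ) else 0) [y] := by
  rw [Pool.Agent.helper72.UT.ker_iter_eq_W]
  unfold cnt
  refine Pool.Agent.helper20.HP.W_congr K t y fun l _ => ?_
  by_cases h : ∀ z ∈ l, z ∉ D
  · rw [Pool.Agent.helper20.HP.ind_true h, one_mul, if_pos h]
    unfold ind lel
    by_cases h2 : (run [y] l).length - 1 = q
    · rw [if_pos h2, if_pos h2]
    · rw [if_neg h2, if_neg h2]
  · rw [Pool.Agent.helper20.HP.ind_false h, zero_mul, if_neg h]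

theorem CT : CT_stmt := by
  classical
  intro V _ _ G d K hreg hK D y q hy
  have hb : ∀ l : List V, |(if l.length - 1 = q then (1 : ℝ) else 0)| ≤ 1 := by
    intro l; split_ifs <;> simp
  have hs := Pool.Agent.helper72.UT.pot_hasSum G hreg.conn d hreg.pos (by
      intro v
      have := hreg.reg v
      convert this) D y hy _ 1 hb
  have hc : ((fors G D).card : ℝ) ≠ 0 := by
    have := Finset.card_pos.2 (Pool.Agent.helper72.UT.fors_nonempty hreg.conn ⟨y, hy⟩)
    exact_mod_cast this.ne'
  have h2 := hs.div_const ((fors G D).card : ℝ)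
  have e1 : (fun t => cnt K D y q t) = fun t => ((fors G D).card : ℝ) *
      (Pool.Agent.helper72.UT.ker (lz G d) D)^[t]
        (fun l => if l.length - 1 = q then (1 : ℝ) else 0) [y] / ((fors G D).card : ℝ) := by
    funext t
    rw [CT_cnt_eq, hK, mul_div_assoc, mul_div_cancel₀ _ hc]
  have e2 : EF G D (fun g => ∑ v, ind (rt D g v = y ∧ dep D g v = q)) =
      Pool.Agent.helper72.UT.pot G D y (fun l => if l.length - 1 = q then (1 : ℝ) else 0) /
        ((fors G D).card : ℝ) := by
    unfold EF Pool.Agent.helper72.UT.pot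
    congr 1
    refine Finset.sum_congr rfl fun f _ => ?_
    rw [Finset.sum_filter]
    refine Finset.sum_congr rfl fun v _ => ?_
    by_cases hv : rt D f v = y
    · rw [if_pos hv]
      show _ = if (pth D f v).length - 1 = q then (1 : ℝ) else 0
      rw [Pool.Agent.helper72.UT.pth_length, Nat.add_sub_cancel]
      unfold ind
      by_cases h3 : dep D f v = q
      · rw [if_pos ⟨hv, h3⟩, if_pos h3]
      · rw [if_neg (fun h => h3 h.2), if_neg h3]
    · rw [if_neg hv]
      unfold ind
      rw [if_neg (fun h => hv h.1)]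
  rw [e1, e2]
  exact h2

end Pool.Agent.helper90.FN
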