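import Pool.Agent.helper90.FN.Spec
import Pool.Agent.helper20.HP.S0

/-!
Modules fn:HY1, fn:HY2 of the functional form of MP_5ae64c_pr.
-/

set_option autoImplicit false

open scoped BigOperators Topology
open Filter MeasureTheory

namespace Pool.Agent.helper90.FN

open Finset
open Pool.Agent.helper72.UT (IsFor dep pth rt fors Reg lz)
open Pool.Agent.helper20.HP (ind HW W Par cc run lel lst lazyP tmix ustE height vol Setup CZ CP IsKer)
open Pool.Agent.helper20.HP (W_mono W_nonneg W_split W_mul_right W_const ind_nonneg ind_le_one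
  ind_mono ind_true ind_false W_mul_left W_sum W_congr)

variable {V : Type} [Fintype V] [DecidableEq V]

/-- expected number of vertices with root `y` and depth `q` -/
noncomputable def HY_N (G : SimpleGraph V) (D : Finset V) (y : V) (q : ℕ) : ℝ :=
  EF G D (fun g => ∑ v, ind (rt D g v = y ∧ dep D g v = q))

theorem HY_N_nonneg (G : SimpleGraph V) (D : Finset V) (y : V) (q : ℕ) : 0 ≤ HY_N G D y q := by
  unfold HY_N EF
  exact div_nonneg (Finset.sum_nonneg fun f _ => Finset.sum_nonneg fun v _ => ind_nonneg _)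
    (Nat.cast_nonneg _)

theorem HY_point (D W : Finset V) (ℓ : V → ℕ) (r w : ℕ) (μ : ℝ) (g : V → V) :
    ew D W ℓ r w μ g ≤ ∑ s ∈ Ico r (r + w), ∑ y ∈ W, (if ℓ y ≤ s then
      Real.exp (μ * ((s - ℓ y : ℕ) : ℝ)) * ∑ v, ind (rt D g v = y ∧ dep D g v = s - ℓ y) else 0) := by
  have e : ∑ s ∈ Ico r (r + w), ∑ y ∈ W, (if ℓ y ≤ s then
      Real.exp (μ * ((s - ℓ y : ℕ) : ℝ)) * ∑ v, ind (rt D g v = y ∧ dep D g v = s - ℓ y) else 0) =
      ∑ v, ∑ s ∈ Ico r (r + w), ∑ y ∈ W, (if ℓ y ≤ s then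
      Real.exp (μ * ((s - ℓ y : ℕ) : ℝ)) * ind (rt D g v = y ∧ dep D g v = s - ℓ y) else 0) := by
    symm
    rw [Finset.sum_comm]
    refine Finset.sum_congr rfl fun s _ => ?_
    rw [Finset.sum_comm]
    refine Finset.sum_congr rfl fun y _ => ?_
    split_ifs
    · rw [Finset.mul_sum]
    · rw [Finset.sum_const_zero]
  rw [e]
  unfold ew
  refine Finset.sum_le_sum fun v _ => ?_
  have hnn : ∀ s y, 0 ≤ (if ℓ y ≤ s then
      Real.exp (μ * ((s - ℓ y : ℕ) : ℝ)) * ind (rt D g v = y ∧ dep D g v = s - ℓ y) else 0) := by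
    intro s y
    split_ifs
    · exact mul_nonneg (Real.exp_pos _).le (ind_nonneg _)
    · exact le_rfl
  by_cases hv : v ∉ D ∧ rt D g v ∈ W ∧ r ≤ lv D ℓ g v ∧ lv D ℓ g v < r + w
  · rw [ind_true hv, one_mul]
    obtain ⟨_, h2, h3, h4⟩ := hv
    have hs : lv D ℓ g v ∈ Ico r (r + w) := Finset.mem_Ico.2 ⟨h3, h4⟩
    refine le_trans ?_ (Finset.single_le_sum (fun s _ => Finset.sum_nonneg fun y _ => hnn s y) hs)
    refine le_trans ?_ (Finset.single_le_sum (fun y _ => hnn _ y) h2)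
    have h5 : lv D ℓ g v - ℓ (rt D g v) = dep D g v := by
      unfold lv; omega
    have h6 : ℓ (rt D g v) ≤ lv D ℓ g v := by unfold lv; omega
    rw [if_pos h6, h5, ind_true ⟨rfl, rfl⟩, mul_one]
  · rw [ind_false hv, zero_mul]
    exact Finset.sum_nonneg fun s _ => Finset.sum_nonneg fun y _ => hnn s y

theorem HY_ew_le (G : SimpleGraph V) (D W : Finset V) (ℓ : V → ℕ) (r w : ℕ) (μ : ℝ) :
    EF G D (ew D W ℓ r w μ) ≤ ∑ s ∈ Ico r (r + w), ∑ y ∈ W, (if ℓ y ≤ s then
      Real.exp (μ * ((s - ℓ y : ℕ) : ℝ)) * HY_N G D y (s - ℓ y) else 0) := by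
  have e : ∑ s ∈ Ico r (r + w), ∑ y ∈ W, (if ℓ y ≤ s then
      Real.exp (μ * ((s - ℓ y : ℕ) : ℝ)) * HY_N G D y (s - ℓ y) else 0) =
      (∑ g ∈ fors G D, ∑ s ∈ Ico r (r + w), ∑ y ∈ W, (if ℓ y ≤ s then
      Real.exp (μ * ((s - ℓ y : ℕ) : ℝ)) * ∑ v, ind (rt D g v = y ∧ dep D g v = s - ℓ y) else 0)) /
        ((fors G D).card : ℝ) := by
    symm
    rw [Finset.sum_comm, Finset.sum_div]
    refine Finset.sum_congr rfl fun s _ => ?_
    rw [Finset.sum_comm, Finset.sum_div]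
    refine Finset.sum_congr rfl fun y _ => ?_
    split_ifs
    · unfold HY_N EF
      rw [← Finset.mul_sum, mul_div_assoc]
    · rw [Finset.sum_const_zero, zero_div]
  rw [e]
  unfold EF
  refine div_le_div_of_nonneg_right ?_ (Nat.cast_nonneg _)
  exact Finset.sum_le_sum fun g _ => HY_point D W ℓ r w μ g

theorem HY_cnt_nonneg (K : HW V) (D : Finset V) (y : V) (q t : ℕ) : 0 ≤ cnt K D y q t :=
  W_nonneg K t y fun _ _ => mul_nonneg (ind_nonneg _) (ind_nonneg _)

theorem HY_cnt_zero (K : HW V) (D : Finset V) (y : V) (q t : ℕ) (h : t < q) :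
    cnt K D y q t = 0 := by
  unfold cnt
  rw [W_congr K t y (g := fun _ => 0) fun l hl => ?_, W_const]
  have h1 := Pool.Agent.helper20.HP.lel_le y l
  rw [ind_false (by omega : ¬ lel y l = q), mul_zero]

theorem HY_hit_mono (K : HW V) {C D : Finset V} (hCD : C ⊆ D) {h : ℕ} (hH : Hit K C h) :
    Hit K D h := by
  intro x
  refine le_trans (W_mono K h x fun l _ => ?_) (hH x)
  exact ind_mono fun h1 z hz hz' => h1 z hz (hCD hz')

theorem HY1 (hCT : CT_stmt) (hCB : CB_stmt) : HY1_stmt := by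
  intro V _ _ G d K θ h₀ h hreg hK hP h1 h4 C hC hH r w D hCD W hWD ℓ
  refine (HY_ew_le G D W ℓ r w _).trans ?_
  have hHD := HY_hit_mono K hCD hH
  set μ : ℝ := Real.log 2 / (2 * h) with hμ
  have hμ0 : 0 ≤ μ := by
    have : 0 ≤ Real.log 2 := Real.log_nonneg (by norm_num)
    positivity
  have hMC : 0 ≤ MC θ := by
    have := hP.one_le
    unfold MC CZ; positivity
  have hb : ∀ y ∈ D, ∀ q : ℕ, Real.exp (μ * q) * HY_N G D y q ≤ MC θ := by
    intro y hy q
    have hs := (hCT V G d K hreg hK D y q hy).mul_left (Real.exp (μ * q))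
    refine le_of_tendsto' hs.tendsto_sum_nat fun N => ?_
    refine le_trans (Finset.sum_le_sum fun t _ => ?_) (hCB V K θ h₀ h hP h1 h4 D hHD y q N)
    by_cases htq : t < q
    · rw [HY_cnt_zero K D y q t htq, mul_zero, mul_zero]
    · push Not at htq
      refine mul_le_mul_of_nonneg_right (Real.exp_le_exp.2 ?_) (HY_cnt_nonneg K D y q t)
      exact mul_le_mul_of_nonneg_left (by exact_mod_cast htq) hμ0
  have hterm : ∀ s ∈ Ico r (r + w), ∀ y ∈ W, (if ℓ y ≤ s then
      Real.exp (μ * ((s - ℓ y : ℕ) : ℝ)) * HY_N G D y (s - ℓ y) else 0) ≤ MC θ := by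
    intro s _ y hy
    split_ifs
    · exact hb y (hWD hy) _
    · exact hMC
  calc ∑ s ∈ Ico r (r + w), ∑ y ∈ W, (if ℓ y ≤ s then
      Real.exp (μ * ((s - ℓ y : ℕ) : ℝ)) * HY_N G D y (s - ℓ y) else 0)
      ≤ ∑ s ∈ Ico r (r + w), ∑ y ∈ W, MC θ :=
        Finset.sum_le_sum fun s hs => Finset.sum_le_sum fun y hy => hterm s hs y hy
    _ = MC θ * w * W.card + 0 := by
        rw [Finset.sum_const, Finset.sum_const, Nat.card_Ico, nsmul_eq_mul, nsmul_eq_mul,
          Nat.add_sub_cancel_left]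
        ring

theorem HY2 (hCT : CT_stmt) (hCA : CA_stmt) : HY2_stmt := by
  intro V _ _ G d K θ h₀ hreg hK hP C hC r w μ hμ0 hμ D hCD W hWD ℓ
  refine (HY_ew_le G D W ℓ r w _).trans ?_
  have hCP : 0 ≤ CP θ := by
    have := hP.one_le
    unfold CP CZ; positivity
  have hexp : Real.exp 1 ≤ 3 := by
    have := Real.exp_one_lt_d9
    linarith
  have hlev : ∀ s ∈ Ico r (r + w), ∑ y ∈ W, (if ℓ y ≤ s then
      Real.exp (μ * ((s - ℓ y : ℕ) : ℝ)) * HY_N G D y (s - ℓ y) else 0) ≤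
      3 * (CP θ * (W.card + Nat.sqrt (Fintype.card V) + (r + w))) := by
    intro s hs
    rw [Finset.mem_Ico] at hs
    have h1 : ∑ y ∈ W, (if ℓ y ≤ s then HY_N G D y (s - ℓ y) else 0) ≤
        CP θ * (W.card + Nat.sqrt (Fintype.card V) + s) := by
      have hsum : HasSum (fun t => ∑ y ∈ W, (if ℓ y ≤ s then cnt K D y (s - ℓ y) t else 0))
          (∑ y ∈ W, (if ℓ y ≤ s then HY_N G D y (s - ℓ y) else 0)) := by
        refine hasSum_sum fun y hy => ?_
        split_ifs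
        · exact hCT V G d K hreg hK D y _ (hWD hy)
        · exact hasSum_zero
      refine le_of_tendsto' hsum.tendsto_sum_nat fun N => ?_
      rw [Finset.sum_comm]
      exact hCA V K θ h₀ hP D W hWD ℓ s N
    have h2 : ∑ y ∈ W, (if ℓ y ≤ s then
        Real.exp (μ * ((s - ℓ y : ℕ) : ℝ)) * HY_N G D y (s - ℓ y) else 0) ≤
        3 * ∑ y ∈ W, (if ℓ y ≤ s then HY_N G D y (s - ℓ y) else 0) := by
      rw [Finset.mul_sum]
      refine Finset.sum_le_sum fun y _ => ?_
      split_ifs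
      · refine mul_le_mul_of_nonneg_right ?_ (HY_N_nonneg G D y _)
        refine le_trans (Real.exp_le_exp.2 ?_) hexp
        refine le_trans (mul_le_mul_of_nonneg_left ?_ hμ0) hμ
        have : s - ℓ y ≤ r + w := by omega
        exact_mod_cast this
      · rw [mul_zero]
    have h3 : (s : ℝ) ≤ r + w := by
      have : s ≤ r + w := by omega
      exact_mod_cast this
    have h4 : CP θ * (W.card + Nat.sqrt (Fintype.card V) + s) ≤
        CP θ * (W.card + Nat.sqrt (Fintype.card V) + (r + w)) :=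
      mul_le_mul_of_nonneg_left (by linarith) hCP
    linarith
  refine (Finset.sum_le_sum hlev).trans ?_
  rw [Finset.sum_const, Nat.card_Ico, nsmul_eq_mul, Nat.add_sub_cancel_left]
  apply le_of_eq
  ring

end Pool.Agent.helper90.FN
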